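import Pool.Agent.TH158.FM.Stm2

/-!
# First derivative test for the non-stationary terms
-/

set_option autoImplicit false

namespace Pool.Agent.TH158.FM

open Complex MeasureTheory Set Filter Topology

/-- amplitude divided by the derivative of the phase -/
noncomputable def nsG (b t u : ℝ) : ℝ := u ^ (-(1 / 2) : ℝ) / (b * u - t)

/-- the derivative of `nsG` -/
noncomputable def nsG' (b t u : ℝ) : ℝ :=
  ((-(1 / 2) : ℝ) * u ^ (-(1 / 2) - 1 : ℝ) * (b * u - t) - u ^ (-(1 / 2) : ℝ) * b) / (b * u - t) ^ 2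

/-- the unit factor -/
noncomputable def nsE (b t u : ℝ) : ℂ := Complex.exp (((b * u - t * Real.log u : ℝ) : ℂ) * I)

lemma nsE_norm (b t u : ℝ) : ‖nsE b t u‖ = 1 := by
  unfold nsE
  exact Complex.norm_exp_ofReal_mul_I _

lemma ns_f (b t u : ℝ) (hu : 0 < u) :
    Complex.exp (((b * u : ℝ) : ℂ) * I) * (u : ℂ) ^ (-(pt (1 / 2) t) - 1) =
      ((u ^ (-(3 / 2) : ℝ) : ℝ) : ℂ) * nsE b t u := by
  have h0 : (u : ℂ) ≠ 0 := by exact_mod_cast hu.ne'
  have h1 : (u : ℂ) ^ (-(pt (1 / 2) t) - 1) =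
      ((u ^ (-(3 / 2) : ℝ) : ℝ) : ℂ) * Complex.exp (((-(t * Real.log u) : ℝ) : ℂ) * I) := by
    have h2 : -(pt (1 / 2) t) - 1 = ((-(3 / 2) : ℝ) : ℂ) + ((-t : ℝ) : ℂ) * I := by
      unfold pt
      push_cast
      ring
    rw [h2, Complex.cpow_add _ _ h0, Complex.ofReal_cpow hu.le]
    congr 1
    rw [Complex.cpow_def_of_ne_zero h0, ← Complex.ofReal_log hu.le]
    congr 1
    push_cast
    ring
  rw [h1]
  unfold nsE
  rw [mul_left_comm, ← Complex.exp_add]
  congr 2
  push_cast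
  ring

lemma ns_main (t c b : ℝ) (hc : 0 < c) (hb : 0 < b) (h : t < b * c) :
    ‖∫ u in Ioi c, Complex.exp (((b * u : ℝ) : ℂ) * I) * (u : ℂ) ^ (-(pt (1 / 2) t) - 1)‖ ≤
      2 / (Real.sqrt c * (b * c - t)) := by
  have hpos : ∀ u, c ≤ u → 0 < b * u - t := by
    intro u hu
    have := mul_le_mul_of_nonneg_left hu hb.le
    linarith
  have hGd : ∀ u ∈ Ici c, HasDerivAt (nsG b t) (nsG' b t u) u := by
    intro u hu
    have hu' : 0 < u := lt_of_lt_of_le hc hu
    have h1 : HasDerivAt (fun u : ℝ => u ^ (-(1 / 2) : ℝ)) ((-(1 / 2) : ℝ) * u ^ (-(1 / 2) - 1 : ℝ)) u :=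
      Real.hasDerivAt_rpow_const (Or.inl hu'.ne')
    have h2 : HasDerivAt (fun u : ℝ => b * u - t) b u := by
      simpa using ((hasDerivAt_id u).const_mul b).sub_const t
    exact h1.div h2 (hpos u hu).ne'
  have hGn : ∀ u ∈ Ioi c, nsG' b t u ≤ 0 := by
    intro u hu
    have hu' : 0 < u := lt_trans hc hu
    have hp := hpos u (le_of_lt hu)
    unfold nsG'
    apply div_nonpos_of_nonpos_of_nonneg _ (sq_nonneg _)
    have h1 : 0 ≤ u ^ (-(1 / 2) - 1 : ℝ) := Real.rpow_nonneg hu'.le _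
    have h2 : 0 ≤ u ^ (-(1 / 2) : ℝ) := Real.rpow_nonneg hu'.le _
    have h3 := mul_nonneg h1 hp.le
    have h4 := mul_nonneg h2 hb.le
    nlinarith
  have hGl : Tendsto (nsG b t) atTop (𝓝 0) := by
    have h1 : Tendsto (fun u : ℝ => u ^ (-(1 / 2) : ℝ)) atTop (𝓝 0) :=
      tendsto_rpow_neg_atTop (by norm_num)
    have h2 : Tendsto (fun u : ℝ => (b * u - t)⁻¹) atTop (𝓝 0) := by
      apply tendsto_inv_atTop_zero.comp
      apply tendsto_atTop_add_const_right
      exact tendsto_id.const_mul_atTop hb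
    have h3 := h1.mul h2
    rw [mul_zero] at h3
    exact h3
  have hGi : IntegrableOn (nsG' b t) (Ioi c) :=
    integrableOn_Ioi_deriv_of_nonpos' hGd hGn hGl
  have hGI : ∫ u in Ioi c, nsG' b t u = 0 - nsG b t c :=
    integral_Ioi_of_hasDerivAt_of_nonpos' hGd hGn hGl
  have hG0 : 0 ≤ nsG b t c := div_nonneg (Real.rpow_nonneg hc.le _) (hpos c le_rfl).le
  -- the unit factor
  have hEd : ∀ u ∈ Ici c, HasDerivAt (nsE b t) (nsE b t u * (((b - t / u : ℝ) : ℂ) * I)) u := by
    intro u hu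
    have hu' : 0 < u := lt_of_lt_of_le hc hu
    have h1 : HasDerivAt (fun u : ℝ => b * u - t * Real.log u) (b - t / u) u := by
      have h2 := ((hasDerivAt_id u).const_mul b).sub ((Real.hasDerivAt_log hu'.ne').const_mul t)
      simp only [id, mul_one] at h2
      exact (show HasDerivAt (fun u : ℝ => b * u - t * Real.log u) (b - t * u⁻¹) u from h2).congr_deriv
        (by rw [div_eq_mul_inv])
    have h3 := (h1.ofReal_comp.mul_const I).cexp
    exact h3
  have hEc : ContinuousOn (nsE b t) (Ici c) := fun u hu => (hEd u hu).continuousAt.continuousWithinAt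
  have hEm : AEStronglyMeasurable (nsE b t) (volume.restrict (Ioi c)) :=
    (hEc.mono Ioi_subset_Ici_self).aestronglyMeasurable measurableSet_Ioi
  -- the antiderivative
  have hHd : ∀ u ∈ Ici c, HasDerivAt (fun u => (-I) * ((nsG b t u : ℂ) * nsE b t u))
      (((u ^ (-(3 / 2) : ℝ) : ℝ) : ℂ) * nsE b t u - I * ((nsG' b t u : ℂ) * nsE b t u)) u := by
    intro u hu
    have hu' : 0 < u := lt_of_lt_of_le hc hu
    have h1 := ((hGd u hu).ofReal_comp.mul (hEd u hu)).const_mul (-I)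
    refine h1.congr_deriv ?_
    have hp := hpos u hu
    have h2 : nsG b t u * (b - t / u) = u ^ (-(3 / 2) : ℝ) := by
      unfold nsG
      have h3 : u ^ (-(3 / 2) : ℝ) = u ^ (-(1 / 2) : ℝ) / u := by
        rw [← Real.rpow_sub_one hu'.ne']
        norm_num
      rw [h3]
      field_simp
    have h4 : ((nsG b t u : ℝ) : ℂ) * ((b - t / u : ℝ) : ℂ) = ((u ^ (-(3 / 2) : ℝ) : ℝ) : ℂ) := by
      rw [← Complex.ofReal_mul, h2]
    rw [← h4]
    linear_combination (-(nsG b t u : ℂ) * nsE b t u * ((b - t / u : ℝ) : ℂ)) * Complex.I_mul_I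
  have hHl : Tendsto (fun u => (-I) * ((nsG b t u : ℂ) * nsE b t u)) atTop (𝓝 0) := by
    rw [tendsto_zero_iff_norm_tendsto_zero]
    have h1 : (fun u => ‖(-I) * ((nsG b t u : ℂ) * nsE b t u)‖) = fun u => |nsG b t u| := by
      funext u
      rw [norm_mul, norm_mul, norm_neg, Complex.norm_I, nsE_norm, Complex.norm_real, one_mul, mul_one,
        Real.norm_eq_abs]
    rw [h1]
    simpa using hGl.abs
  have hfi : IntegrableOn (fun u : ℝ => ((u ^ (-(3 / 2) : ℝ) : ℝ) : ℂ) * nsE b t u) (Ioi c) := by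
    have h1 : IntegrableOn (fun u : ℝ => u ^ (-(3 / 2) : ℝ)) (Ioi c) :=
      integrableOn_Ioi_rpow_of_lt (by norm_num) hc
    have h2 : IntegrableOn (fun u : ℝ => ((u ^ (-(3 / 2) : ℝ) : ℝ) : ℂ)) (Ioi c) := h1.ofReal
    exact h2.mul_bdd (c := 1) hEm (Eventually.of_forall fun u => (nsE_norm b t u).le)
  have hgi : IntegrableOn (fun u : ℝ => I * ((nsG' b t u : ℂ) * nsE b t u)) (Ioi c) := by
    have h2 : IntegrableOn (fun u : ℝ => ((nsG' b t u : ℝ) : ℂ)) (Ioi c) := hGi.ofReal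
    exact (h2.mul_bdd (c := 1) hEm (Eventually.of_forall fun u => (nsE_norm b t u).le)).const_mul I
  have hH := integral_Ioi_of_hasDerivAt_of_tendsto' hHd (hfi.sub hgi) hHl
  rw [integral_sub hfi hgi] at hH
  have hf : ∫ u in Ioi c, Complex.exp (((b * u : ℝ) : ℂ) * I) * (u : ℂ) ^ (-(pt (1 / 2) t) - 1) =
      ∫ u in Ioi c, ((u ^ (-(3 / 2) : ℝ) : ℝ) : ℂ) * nsE b t u :=
    setIntegral_congr_fun measurableSet_Ioi fun u hu => ns_f b t u (lt_trans hc hu)
  rw [hf]
  have h5 : ∫ u in Ioi c, ((u ^ (-(3 / 2) : ℝ) : ℝ) : ℂ) * nsE b t u =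
      I * ((nsG b t c : ℂ) * nsE b t c) + ∫ u in Ioi c, I * ((nsG' b t u : ℂ) * nsE b t u) := by
    linear_combination hH
  rw [h5]
  have h6 : ‖I * ((nsG b t c : ℂ) * nsE b t c)‖ = nsG b t c := by
    rw [norm_mul, norm_mul, Complex.norm_I, nsE_norm, Complex.norm_real, one_mul, mul_one,
      Real.norm_eq_abs, abs_of_nonneg hG0]
  have h7 : ‖∫ u in Ioi c, I * ((nsG' b t u : ℂ) * nsE b t u)‖ ≤ nsG b t c := by
    calc ‖∫ u in Ioi c, I * ((nsG' b t u : ℂ) * nsE b t u)‖
        ≤ ∫ u in Ioi c, ‖I * ((nsG' b t u : ℂ) * nsE b t u)‖ := norm_integral_le_integral_norm _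
      _ = ∫ u in Ioi c, -nsG' b t u := by
          apply setIntegral_congr_fun measurableSet_Ioi
          intro u hu
          simp only
          rw [norm_mul, norm_mul, Complex.norm_I, nsE_norm, Complex.norm_real, one_mul, mul_one,
            Real.norm_eq_abs, abs_of_nonpos (hGn u hu)]
      _ = nsG b t c := by rw [integral_neg, hGI]; ring
  have h8 : nsG b t c = 1 / (Real.sqrt c * (b * c - t)) := by
    unfold nsG
    rw [Real.rpow_neg hc.le, ← Real.sqrt_eq_rpow, inv_eq_one_div, div_div]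
  calc _ ≤ ‖I * ((nsG b t c : ℂ) * nsE b t c)‖ + ‖∫ u in Ioi c, I * ((nsG' b t u : ℂ) * nsE b t u)‖ :=
        norm_add_le _ _
    _ ≤ nsG b t c + nsG b t c := by rw [h6]; gcongr
    _ = 2 / (Real.sqrt c * (b * c - t)) := by rw [h8]; ring

theorem ns_all : S_NS := by
  refine ⟨?_, ?_⟩
  · intro t c m hc hm _ h
    have hm' : (0 : ℝ) < m := by exact_mod_cast hm
    have h1 := ns_main t c (2 * Real.pi * m) hc (by positivity) h
    unfold KK
    exact h1
  · intro t c m hc hm ht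
    have hm' : (0 : ℝ) < m := by exact_mod_cast hm
    have hlt : -t < 2 * Real.pi * m * c := by
      have : 0 < 2 * Real.pi * m * c := by positivity
      linarith
    have h1 := ns_main (-t) c (2 * Real.pi * m) hc (by positivity) hlt
    have h2 : KK (-m) c t = (starRingEnd ℂ) (∫ u in Ioi c,
        Complex.exp (((2 * Real.pi * m * u : ℝ) : ℂ) * I) * (u : ℂ) ^ (-(pt (1 / 2) (-t)) - 1)) := by
      unfold KK
      rw [← integral_conj]
      apply setIntegral_congr_fun measurableSet_Ioi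
      intro u hu
      have hu' : 0 < u := lt_trans hc hu
      simp only
      rw [map_mul, ← Complex.exp_conj, map_mul, Complex.conj_ofReal, Complex.conj_I]
      congr 1
      · congr 1
        push_cast
        ring
      · have hn : -(pt (1 / 2) t) - 1 = (starRingEnd ℂ) (-(pt (1 / 2) (-t)) - 1) := by
          unfold pt
          rw [map_sub, map_neg, map_add, map_mul, Complex.conj_ofReal, Complex.conj_ofReal,
            Complex.conj_I, map_one]
          push_cast
          ring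
        rw [hn, Complex.cpow_conj _ _
          (by rw [Complex.arg_ofReal_of_nonneg hu'.le]; exact Real.pi_pos.ne), Complex.conj_ofReal]
    rw [h2, RCLike.norm_conj]
    rw [sub_neg_eq_add] at h1
    exact h1

end Pool.Agent.TH158.FM
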